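import Pool.Agent.TH625.GM.Props

set_option autoImplicit false

open Complex MeasureTheory
open UpperHalfPlane hiding I
open scoped Real MatrixGroups ModularForm

open Pool.Agent.TH625.GM

namespace Pool.Agent.TH153.J698

noncomputable section

lemma hs_congr {ι : Type*} {f g : ι → ℂ} {a : ℂ} (h : HasSum g a) (e : ∀ i, f i = g i) :
    HasSum f a := by
  rw [funext e]
  exact h

/-! ### multiplication by the golden ratio -/

lemma e1_mulPhi (b : ℤ × ℤ) : e1 (mulPhi b) = Real.goldenRatio * e1 b := by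
  have h : Real.goldenRatio ^ 2 = Real.goldenRatio + 1 := Real.goldenRatio_sq
  simp only [e1, mulPhi]
  push_cast
  linear_combination (-(b.2 : ℝ)) * h

lemma e2_mulPhi (b : ℤ × ℤ) : e2 (mulPhi b) = Real.goldenConj * e2 b := by
  have h : Real.goldenConj ^ 2 = Real.goldenConj + 1 := Real.goldenConj_sq
  simp only [e2, mulPhi]
  push_cast
  linear_combination (-(b.2 : ℝ)) * h

/-- multiplication by `φ` as a permutation -/
def PE : Equiv.Perm (ℤ × ℤ) where
  toFun := mulPhi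
  invFun := fun b => (b.2 - b.1, b.1)
  left_inv := fun b => by simp [mulPhi]
  right_inv := fun b => by simp [mulPhi]

lemma PE_apply (b : ℤ × ℤ) : PE b = mulPhi b := rfl

lemma PE_zero : PE 0 = 0 := by simp [PE, mulPhi]

lemma PE_inv (b : ℤ × ℤ) : PE (PE⁻¹ b) = b := PE.apply_symm_apply b

lemma e1_inv (b : ℤ × ℤ) : e1 (PE⁻¹ b) = Real.goldenRatio⁻¹ * e1 b := by
  have h := e1_mulPhi (PE⁻¹ b)
  rw [← PE_apply, PE_inv] at h
  rw [h, inv_mul_cancel_left₀ Real.goldenRatio_ne_zero]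

lemma e2_inv (b : ℤ × ℤ) : e2 (PE⁻¹ b) = Real.goldenConj⁻¹ * e2 b := by
  have h := e2_mulPhi (PE⁻¹ b)
  rw [← PE_apply, PE_inv] at h
  rw [h, inv_mul_cancel_left₀ Real.goldenConj_ne_zero]

lemma e1_zpow (k : ℤ) : ∀ b : ℤ × ℤ, e1 ((PE ^ k) b) = Real.goldenRatio ^ k * e1 b := by
  induction k using Int.induction_on with
  | zero => intro b; simp
  | succ n ih =>
    intro b
    rw [zpow_add_one, Equiv.Perm.mul_apply, ih, PE_apply, e1_mulPhi,
      zpow_add_one₀ Real.goldenRatio_ne_zero]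
    ring
  | pred n ih =>
    intro b
    rw [zpow_sub_one, Equiv.Perm.mul_apply, ih, e1_inv, zpow_sub_one₀ Real.goldenRatio_ne_zero]
    ring

lemma e2_zpow (k : ℤ) : ∀ b : ℤ × ℤ, e2 ((PE ^ k) b) = Real.goldenConj ^ k * e2 b := by
  induction k using Int.induction_on with
  | zero => intro b; simp
  | succ n ih =>
    intro b
    rw [zpow_add_one, Equiv.Perm.mul_apply, ih, PE_apply, e2_mulPhi,
      zpow_add_one₀ Real.goldenConj_ne_zero]
    ring
  | pred n ih =>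
    intro b
    rw [zpow_sub_one, Equiv.Perm.mul_apply, ih, e2_inv, zpow_sub_one₀ Real.goldenConj_ne_zero]
    ring

lemma Lg_pos : 0 < Lg := Real.log_pos Real.one_lt_goldenRatio

lemma exp_Lg : Real.exp Lg = Real.goldenRatio := Real.exp_log Real.goldenRatio_pos

lemma phi_zpow (k : ℤ) : Real.goldenRatio ^ k = Real.exp (k * Lg) := by
  rw [mul_comm, Real.exp_mul, exp_Lg, Real.rpow_intCast]

lemma psi_sq_zpow (k : ℤ) : (Real.goldenConj ^ k) ^ 2 = Real.exp (-(2 * (k * Lg))) := by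
  have h : Real.goldenConj = -Real.goldenRatio⁻¹ := by rw [Real.inv_goldenRatio]; ring
  rw [h, ← zpow_natCast, ← zpow_mul, mul_comm, zpow_mul]
  push_cast
  rw [show ((2 : ℤ)) = ((2 : ℕ) : ℤ) by norm_num, zpow_natCast, neg_sq, ← zpow_natCast, ← zpow_mul,
    inv_zpow, phi_zpow, ← Real.exp_neg]
  push_cast
  congr 1
  ring

lemma maj_zpow (k : ℤ) (s : ℝ) (b : ℤ × ℤ) : maj s ((PE ^ k) b) = maj (s + k * Lg) b := by
  unfold maj
  rw [e1_zpow, e2_zpow, mul_pow, mul_pow, psi_sq_zpow, phi_zpow, ← Real.exp_nat_mul,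
    show 2 * (s + k * Lg) = 2 * s + ((2 : ℕ) : ℝ) * (k * Lg) by push_cast; ring,
    Real.exp_add,
    show -(2 * s + ((2 : ℕ) : ℝ) * (k * Lg)) = -(2 * s) + -(2 * (k * Lg)) by push_cast; ring,
    Real.exp_add]
  ring

/-! ### non-vanishing -/

lemma e1_ne {b : ℤ × ℤ} (hb : b ≠ 0) : e1 b ≠ 0 := by
  intro h
  unfold e1 at h
  by_cases h2 : b.2 = 0
  · rw [h2] at h
    simp at h
    exact hb (Prod.ext h h2)
  · have hirr := Real.goldenRatio_irrational
    have h3 : Real.goldenRatio = ((-(b.1 : ℚ) / b.2 : ℚ) : ℝ) := by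
      push_cast
      rw [eq_div_iff (by exact_mod_cast h2)]
      linarith
    exact hirr ⟨_, h3.symm⟩

lemma e2_ne {b : ℤ × ℤ} (hb : b ≠ 0) : e2 b ≠ 0 := by
  intro h
  unfold e2 at h
  by_cases h2 : b.2 = 0
  · rw [h2] at h
    simp at h
    exact hb (Prod.ext h h2)
  · have hirr := Real.goldenConj_irrational
    have h3 : Real.goldenConj = ((-(b.1 : ℚ) / b.2 : ℚ) : ℝ) := by
      push_cast
      rw [eq_div_iff (by exact_mod_cast h2)]
      linarith
    exact hirr ⟨_, h3.symm⟩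

lemma nm_eq (b : ℤ × ℤ) : (nm b : ℝ) = e1 b * e2 b := by
  have h1 : Real.goldenRatio * Real.goldenConj = -1 := Real.goldenRatio_mul_goldenConj
  have h2 : Real.goldenRatio + Real.goldenConj = 1 := Real.goldenRatio_add_goldenConj
  unfold nm e1 e2
  push_cast
  linear_combination (-(b.2 : ℝ) ^ 2) * h1 - (b.1 : ℝ) * b.2 * h2

lemma zpow_ne {b : ℤ × ℤ} (hb : b ≠ 0) (k : ℤ) : (PE ^ k) b ≠ 0 := by
  intro h
  have h1 := e1_zpow k b
  rw [h] at h1
  have h2 : e1 0 = 0 := by simp [e1]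
  rw [h2] at h1
  have h3 : Real.goldenRatio ^ k ≠ 0 := zpow_ne_zero _ Real.goldenRatio_ne_zero
  exact (mul_ne_zero h3 (e1_ne hb)) h1.symm

/-- `log |e1 / e2|` -/
def lr (b : ℤ × ℤ) : ℝ := Real.log (|e1 b| / |e2 b|)

lemma lr_zpow {b : ℤ × ℤ} (hb : b ≠ 0) (k : ℤ) : lr ((PE ^ k) b) = lr b + k * (2 * Lg) := by
  unfold lr
  have h1 : 0 < |e1 b| := abs_pos.2 (e1_ne hb)
  have h2 : 0 < |e2 b| := abs_pos.2 (e2_ne hb)
  rw [e1_zpow, e2_zpow, abs_mul, abs_mul]
  have h3 : |Real.goldenRatio ^ k| = Real.exp (k * Lg) := by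
    rw [phi_zpow, abs_of_pos (Real.exp_pos _)]
  have h4 : |Real.goldenConj ^ k| = Real.exp (-(k * Lg)) := by
    have h5 := psi_sq_zpow k
    rw [← Real.sqrt_sq_eq_abs, h5, show -(2 * (k * Lg)) = -(k * Lg) + -(k * Lg) by ring,
      Real.exp_add, Real.sqrt_mul_self (Real.exp_pos _).le]
  rw [h3, h4, mul_div_mul_comm, ← Real.exp_sub,
    Real.log_mul (Real.exp_pos _).ne' (div_pos h1 h2).ne', Real.log_exp]
  ring

lemma mem_Dm_iff (b : ℤ × ℤ) : b ∈ Dm ↔ b ≠ 0 ∧ 0 ≤ lr b ∧ lr b < 2 * Lg := by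
  unfold Dm
  simp only [Set.mem_ofPred_eq]
  refine and_congr_right fun hb => ?_
  have h1 : 0 < |e1 b| := abs_pos.2 (e1_ne hb)
  have h2 : 0 < |e2 b| := abs_pos.2 (e2_ne hb)
  have h3 : 0 < |e1 b| / |e2 b| := div_pos h1 h2
  have h4 : Real.goldenRatio ^ 2 = Real.exp (2 * Lg) := by
    rw [← exp_Lg, ← Real.exp_nat_mul]; push_cast; rfl
  constructor
  · rintro ⟨h5, h6⟩
    constructor
    · unfold lr
      apply Real.log_nonneg
      rwa [le_div_iff₀ h2, one_mul]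
    · unfold lr
      rw [Real.log_lt_iff_lt_exp h3, ← h4, div_lt_iff₀ h2]
      exact h6
  · rintro ⟨h5, h6⟩
    unfold lr at h5 h6
    constructor
    · have := (Real.le_log_iff_exp_le h3).1 h5
      rw [Real.exp_zero, le_div_iff₀ h2, one_mul] at this
      exact this
    · rw [Real.log_lt_iff_lt_exp h3, ← h4, div_lt_iff₀ h2] at h6
      exact h6

/-! ### the orbit decomposition -/

/-- exponent attached to an index -/
def ex : ℤ ⊕ ℤ → ℤ
  | Sum.inl j => 2 * j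
  | Sum.inr j => 2 * j + 1

lemma ex_inj : Function.Injective ex := by
  rintro (i | i) (j | j) h <;> simp only [ex] at h
  · congr 1; omega
  · omega
  · omega
  · congr 1; omega

lemma ex_surj (k : ℤ) : ∃ u, ex u = k := by
  rcases Int.even_or_odd' k with ⟨j, h | h⟩
  · exact ⟨Sum.inl j, h.symm⟩
  · exact ⟨Sum.inr j, h.symm⟩

/-- the parametrisation of the nonzero elements -/
def Phi (u : Dm × (ℤ ⊕ ℤ)) : ℤ × ℤ := (PE ^ (ex u.2)) u.1

lemma Phi_inj : Function.Injective Phi := by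
  rintro ⟨⟨b, hb⟩, u⟩ ⟨⟨c, hc⟩, v⟩ h
  simp only [Phi] at h
  have hb' := (mem_Dm_iff b).1 hb
  have hc' := (mem_Dm_iff c).1 hc
  have h1 := lr_zpow hb'.1 (ex u)
  have h2 := lr_zpow hc'.1 (ex v)
  rw [h, h2] at h1
  have hL := Lg_pos
  have h3 : ex u = ex v := by
    by_contra hne
    rcases lt_or_gt_of_ne hne with hlt | hlt
    · have h4 : (ex u : ℝ) + 1 ≤ ex v := by exact_mod_cast hlt
      nlinarith [hb'.2.1, hb'.2.2, hc'.2.1, hc'.2.2]
    · have h4 : (ex v : ℝ) + 1 ≤ ex u := by exact_mod_cast hlt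
      nlinarith [hb'.2.1, hb'.2.2, hc'.2.1, hc'.2.2]
  rw [h3] at h
  have h5 : b = c := (PE ^ (ex v)).injective h
  have h6 : u = v := ex_inj h3
  subst h5 h6
  rfl

lemma Phi_range (b : ℤ × ℤ) (hb : b ∉ Set.range Phi) : b = 0 := by
  by_contra hne
  apply hb
  have hL := Lg_pos
  set k : ℤ := ⌊lr b / (2 * Lg)⌋ with hk
  have h1 : (k : ℝ) ≤ lr b / (2 * Lg) := Int.floor_le _
  have h2 : lr b / (2 * Lg) < k + 1 := Int.lt_floor_add_one _
  rw [le_div_iff₀ (by positivity)] at h1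
  rw [div_lt_iff₀ (by positivity)] at h2
  have h3 : (PE ^ (-k)) b ∈ Dm := by
    rw [mem_Dm_iff]
    refine ⟨zpow_ne hne _, ?_, ?_⟩
    · rw [lr_zpow hne]; push_cast; linarith
    · rw [lr_zpow hne]; push_cast; linarith
  obtain ⟨u, hu⟩ := ex_surj k
  refine ⟨(⟨(PE ^ (-k)) b, h3⟩, u), ?_⟩
  simp only [Phi, hu]
  rw [← Equiv.Perm.mul_apply, ← zpow_add]
  simp

lemma F_even (F : ℤ × ℤ → ℂ) (hF : ∀ b, F (mulPhi (mulPhi b)) = F b) (j : ℤ) :
    ∀ b, F ((PE ^ (2 * j)) b) = F b := by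
  induction j using Int.induction_on with
  | zero => intro b; simp
  | succ n ih =>
    intro b
    rw [mul_add, zpow_add, Equiv.Perm.mul_apply, ih]
    exact hF b
  | pred n ih =>
    intro b
    rw [mul_sub, zpow_sub, Equiv.Perm.mul_apply, ih]
    have h := hF ((PE ^ (2 * 1 : ℤ))⁻¹ b)
    rw [← h]
    congr 1
    have h2 : mulPhi (mulPhi ((PE ^ (2 * 1 : ℤ))⁻¹ b)) =
      (PE ^ (2 * 1 : ℤ)) ((PE ^ (2 * 1 : ℤ))⁻¹ b) := rfl
    rw [h2]
    exact (PE ^ (2 * 1 : ℤ)).apply_symm_apply b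

lemma F_odd (F : ℤ × ℤ → ℂ) (hF : ∀ b, F (mulPhi (mulPhi b)) = F b) (j : ℤ) (b : ℤ × ℤ) :
    F ((PE ^ (2 * j + 1)) b) = F (mulPhi b) := by
  rw [zpow_add_one, Equiv.Perm.mul_apply]
  exact F_even F hF j _

/-! ### the Bessel integral -/

lemma cosh_ge (v : ℝ) : v ^ 2 / 4 ≤ Real.cosh v := by
  rw [Real.cosh_eq]
  rcases le_total 0 v with h | h
  · have h1 := Real.quadratic_le_exp_of_nonneg h
    have h2 := Real.exp_pos (-v)
    nlinarith
  · have h1 := Real.quadratic_le_exp_of_nonneg (neg_nonneg.2 h)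
    have h2 := Real.exp_pos v
    nlinarith

/-- the integrand of the Bessel integral over the line -/
def hh (X t v : ℝ) : ℂ := (Real.exp (-(X * Real.cosh v)) : ℂ) * cexp ((-(t * v) : ℝ) * I)

lemma hh_cont (X t : ℝ) : Continuous (hh X t) := by
  unfold hh
  fun_prop

lemma hh_integrable {X : ℝ} (hX : 0 < X) (t : ℝ) : Integrable (hh X t) := by
  have h1 : Integrable (fun v : ℝ => Real.exp (-(X / 4) * v ^ 2)) :=
    integrable_exp_neg_mul_sq (by positivity)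
  refine h1.mono' (hh_cont X t).aestronglyMeasurable (Filter.Eventually.of_forall fun v => ?_)
  unfold hh
  rw [norm_mul, Complex.norm_exp_ofReal_mul_I, mul_one, Complex.norm_real, Real.norm_eq_abs,
    abs_of_pos (Real.exp_pos _)]
  apply Real.exp_le_exp.2
  nlinarith [cosh_ge v]

lemma hh_integral {X : ℝ} (hX : 0 < X) (t : ℝ) : ∫ v, hh X t v = 2 * (KB t X : ℂ) := by
  have hi := hh_integrable hX t
  have hneg : Integrable (fun v => hh X t (-v)) := hi.comp_neg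
  rw [← integral_add_compl (measurableSet_Ioi (a := (0 : ℝ))) hi, Set.compl_Ioi]
  have h1 : ∫ v in Set.Iic (0 : ℝ), hh X t v = ∫ v in Set.Ioi (0 : ℝ), hh X t (-v) := by
    rw [integral_comp_neg_Ioi, neg_zero]
  rw [h1, ← integral_add hi.integrableOn hneg.integrableOn]
  unfold KB
  rw [← integral_complex_ofReal, ← integral_const_mul]
  refine integral_congr_ae (Filter.Eventually.of_forall fun v => ?_)
  simp only [hh, Real.cosh_neg]
  have h2 : (cexp ((-(t * v) : ℝ) * I)) + cexp ((-(t * -v) : ℝ) * I) = 2 * Complex.cos (t * v) := by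
    rw [Complex.cos]
    push_cast
    have e1 : -((t : ℂ) * v) * I = -(t * v * I) := by ring
    have e2 : -((t : ℂ) * -v) * I = t * v * I := by ring
    rw [e1, e2]
    ring
  rw [← mul_add, h2]
  push_cast
  ring

lemma maj_eq {b : ℤ × ℤ} (hb : b ≠ 0) (s : ℝ) :
    maj s b = 2 * ((nm b).natAbs : ℝ) * Real.cosh (2 * s + lr b) := by
  have h1 : 0 < |e1 b| := abs_pos.2 (e1_ne hb)
  have h2 : 0 < |e2 b| := abs_pos.2 (e2_ne hb)
  have h3 : ((nm b).natAbs : ℝ) = |e1 b| * |e2 b| := by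
    rw [Nat.cast_natAbs, Int.cast_abs, nm_eq, abs_mul]
  have h4 : Real.exp (lr b) = |e1 b| / |e2 b| := Real.exp_log (div_pos h1 h2)
  rw [h3, Real.cosh_eq, Real.exp_add, neg_add, Real.exp_add, Real.exp_neg (lr b), h4]
  unfold maj
  rw [← sq_abs (e1 b), ← sq_abs (e2 b)]
  field_simp

lemma rho_eq (b : ℤ × ℤ) : rho b = cexp ((tt * lr b : ℝ) * I) := rfl

/-- the integrand over `s` -/
def W (y : ℝ) (b : ℤ × ℤ) (s : ℝ) : ℂ :=
  (Real.exp (-(π * y * maj s b)) : ℂ) * cexp ((-(π * s / Lg) : ℝ) * I)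

lemma W_eq {b : ℤ × ℤ} (hb : b ≠ 0) (y s : ℝ) :
    W y b s = rho b * hh (2 * π * ((nm b).natAbs : ℝ) * y) tt (2 * s + lr b) := by
  have hL := Lg_pos
  unfold W hh
  rw [rho_eq, maj_eq hb]
  have h1 : (-(π * s / Lg) : ℝ) = tt * lr b + -(tt * (2 * s + lr b)) := by
    unfold tt
    field_simp
    ring
  rw [h1, Complex.ofReal_add, add_mul, Complex.exp_add]
  have h2 : -(π * y * (2 * ((nm b).natAbs : ℝ) * Real.cosh (2 * s + lr b))) =
    -(2 * π * ((nm b).natAbs : ℝ) * y * Real.cosh (2 * s + lr b)) := by ring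
  rw [h2]
  ring

lemma natAbs_pos {b : ℤ × ℤ} (hb : b ≠ 0) : 0 < ((nm b).natAbs : ℝ) := by
  rw [Nat.cast_natAbs, Int.cast_abs, nm_eq, abs_pos]
  exact mul_ne_zero (e1_ne hb) (e2_ne hb)

lemma W_integrable {b : ℤ × ℤ} (hb : b ≠ 0) {y : ℝ} (hy : 0 < y) : Integrable (W y b) := by
  have hX : 0 < 2 * π * ((nm b).natAbs : ℝ) * y := by
    have := natAbs_pos hb
    positivity
  have h1 : Integrable (fun v => hh (2 * π * ((nm b).natAbs : ℝ) * y) tt (v + lr b)) :=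
    (hh_integrable hX tt).comp_add_right (lr b)
  have h2 := h1.comp_mul_left' (two_ne_zero' ℝ)
  have h3 := h2.const_mul (rho b)
  refine h3.congr (Filter.Eventually.of_forall fun s => ?_)
  exact (W_eq hb y s).symm

lemma W_integral {b : ℤ × ℤ} (hb : b ≠ 0) {y : ℝ} (hy : 0 < y) :
    ∫ s, W y b s = rho b * (KB tt (2 * π * ((nm b).natAbs : ℝ) * y) : ℂ) := by
  have hX : 0 < 2 * π * ((nm b).natAbs : ℝ) * y := by
    have := natAbs_pos hb
    positivity
  rw [integral_congr_ae (Filter.Eventually.of_forall fun s => W_eq hb y s), integral_const_mul]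
  congr 1
  have h1 := Measure.integral_comp_mul_left
    (fun v => hh (2 * π * ((nm b).natAbs : ℝ) * y) tt (v + lr b)) 2
  rw [h1, integral_add_right_eq_self (hh (2 * π * ((nm b).natAbs : ℝ) * y) tt) (lr b),
    hh_integral hX]
  rw [abs_of_pos (by norm_num : (0 : ℝ) < 2⁻¹), Complex.real_smul]
  push_cast
  ring

lemma W_cont (y : ℝ) (b : ℤ × ℤ) : Continuous (W y b) := by
  unfold W maj
  fun_prop

/-! ### summation over the orbit -/

/-- the integral over one period -/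
def G (y : ℝ) (b : ℤ × ℤ) : ℂ := ∫ s in (0 : ℝ)..(2 * Lg), W y b s

lemma W_shift (y : ℝ) (b : ℤ × ℤ) (k : ℤ) (s : ℝ) :
    W y ((PE ^ k) b) s = (-1) ^ k * W y b (s + k * Lg) := by
  have hL := Lg_pos
  unfold W
  rw [maj_zpow]
  have h1 : (-(π * s / Lg) : ℝ) = -(π * (s + k * Lg) / Lg) + k * π := by
    field_simp
    ring
  have h2 : cexp (((k * π : ℝ) : ℂ) * I) = (-1) ^ k := by
    have h3 : ((k * π : ℝ) : ℂ) * I = k * (π * I) := by push_cast; ring
    rw [h3, Complex.exp_int_mul, Complex.exp_pi_mul_I]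
  rw [h1, Complex.ofReal_add, add_mul, Complex.exp_add, h2]
  ring

lemma G_shift (y : ℝ) (b : ℤ × ℤ) (k : ℤ) :
    G y ((PE ^ k) b) = (-1) ^ k * ∫ s in (k * Lg)..(2 * Lg + k * Lg), W y b s := by
  unfold G
  simp only [W_shift y b k]
  rw [intervalIntegral.integral_const_mul, intervalIntegral.integral_comp_add_right, zero_add]

lemma hasSum_tile {b : ℤ × ℤ} (hb : b ≠ 0) {y : ℝ} (hy : 0 < y) (a : ℝ) :
    HasSum (fun j : ℤ => ∫ s in Set.Ioc (a + j • (2 * Lg)) (a + (j + 1) • (2 * Lg)), W y b s)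
      (∫ s, W y b s) := by
  have hL : 0 < 2 * Lg := by have := Lg_pos; positivity
  have h1 := hasSum_integral_iUnion (μ := (volume : Measure ℝ))
    (s := fun j : ℤ => Set.Ioc (a + j • (2 * Lg)) (a + (j + 1) • (2 * Lg)))
    (f := W y b) (fun j => measurableSet_Ioc) (Set.pairwise_disjoint_Ioc_add_zsmul a (2 * Lg))
    (W_integrable hb hy).integrableOn
  rw [iUnion_Ioc_add_zsmul hL a, setIntegral_univ] at h1
  exact h1

lemma hasSum_orbit (F : ℤ × ℤ → ℂ) (hF : ∀ b, F (mulPhi (mulPhi b)) = F b) {b : ℤ × ℤ}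
    (hb : b ≠ 0) {y : ℝ} (hy : 0 < y) :
    HasSum (fun u : ℤ ⊕ ℤ => F ((PE ^ (ex u)) b) * G y ((PE ^ (ex u)) b))
      ((F b - F (mulPhi b)) * ∫ s, W y b s) := by
  have hL := Lg_pos
  have h0 := (hasSum_tile hb hy 0).mul_left (F b)
  have h1 := (hasSum_tile hb hy Lg).mul_left (-F (mulPhi b))
  have e : (F b - F (mulPhi b)) * ∫ s, W y b s =
    F b * (∫ s, W y b s) + -F (mulPhi b) * ∫ s, W y b s := by ring
  rw [e]
  refine HasSum.sum (hs_congr h0 fun j => ?_) (hs_congr h1 fun j => ?_)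
  · simp only [Function.comp_apply, ex]
    rw [F_even F hF, G_shift, intervalIntegral.integral_of_le (by linarith)]
    have e1 : ((-1 : ℂ)) ^ (2 * j) = 1 := by rw [zpow_mul]; norm_num
    have e2 : ((2 * j : ℤ) : ℝ) * Lg = 0 + j • (2 * Lg) := by
      rw [zsmul_eq_mul]; push_cast; ring
    have e3 : 2 * Lg + ((2 * j : ℤ) : ℝ) * Lg = 0 + (j + 1) • (2 * Lg) := by
      rw [zsmul_eq_mul]; push_cast; ring
    rw [e3, e1, e2, one_mul]
  · simp only [Function.comp_apply, ex]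
    rw [F_odd F hF, G_shift, intervalIntegral.integral_of_le (by linarith)]
    have e1 : ((-1 : ℂ)) ^ (2 * j + 1) = -1 := by
      rw [zpow_add₀ (by norm_num), zpow_mul]; norm_num
    have e2 : ((2 * j + 1 : ℤ) : ℝ) * Lg = Lg + j • (2 * Lg) := by
      rw [zsmul_eq_mul]; push_cast; ring
    have e3 : 2 * Lg + ((2 * j + 1 : ℤ) : ℝ) * Lg = Lg + (j + 1) • (2 * Lg) := by
      rw [zsmul_eq_mul]; push_cast; ring
    rw [e3, e1, e2]
    ring

/-! ### the theta series -/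

lemma term_eq (F : ℤ × ℤ → ℂ) (s y : ℝ) (b : ℤ × ℤ) :
    F b * cexp (((-(π * y * maj s b) : ℝ) : ℂ) + ((2 * π * 0 * nm b : ℝ) : ℂ) * I) =
      F b * (Real.exp (-(π * y * maj s b)) : ℂ) := by
  congr 1
  rw [Complex.ofReal_exp]
  congr 1
  push_cast
  ring

lemma maj_ge (b : ℤ × ℤ) {s : ℝ} (h0 : 0 ≤ s) (h1 : s ≤ 2 * Lg) :
    Real.exp (-(4 * Lg)) * maj 0 b ≤ maj s b := by
  unfold maj
  have e1' : Real.exp (-(4 * Lg)) ≤ Real.exp (2 * s) := Real.exp_le_exp.2 (by have := Lg_pos; linarith)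
  have e2' : Real.exp (-(4 * Lg)) ≤ Real.exp (-(2 * s)) := Real.exp_le_exp.2 (by linarith)
  simp only [mul_zero, neg_zero, Real.exp_zero, mul_one]
  nlinarith [sq_nonneg (e1 b), sq_nonneg (e2 b),
    mul_le_mul_of_nonneg_left e1' (sq_nonneg (e1 b)),
    mul_le_mul_of_nonneg_left e2' (sq_nonneg (e2 b))]

lemma hasSum_G (hs : ThSummable) (F : ℤ × ℤ → ℂ) (k : ℕ) (C : ℝ)
    (hb : ∀ b, ‖F b‖ ≤ C * (1 + |(b.1 : ℝ)| + |(b.2 : ℝ)|) ^ k) {y : ℝ} (hy : 0 < y) :
    HasSum (fun b => F b * G y b)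
      (∫ s in (0 : ℝ)..(2 * Lg), Th F s 0 y * cexp ((-(π * s / Lg) : ℝ) * I)) := by
  have hL := Lg_pos
  have hsum := (hs F k C hb 0 0 (y * Real.exp (-(4 * Lg))) (by positivity)).norm
  have h := intervalIntegral.hasSum_integral_of_dominated_convergence (μ := volume)
    (a := 0) (b := 2 * Lg) (F := fun b s => F b * W y b s)
    (f := fun s => Th F s 0 y * cexp ((-(π * s / Lg) : ℝ) * I))
    (fun b _ => ‖F b * cexp (((-(π * (y * Real.exp (-(4 * Lg))) * maj 0 b) : ℝ) : ℂ) +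
      ((2 * π * 0 * nm b : ℝ) : ℂ) * I)‖)
    (fun b => ((W_cont y b).const_smul (F b)).aestronglyMeasurable) ?_ ?_ ?_ ?_
  · refine hs_congr h fun b => ?_
    unfold G
    rw [intervalIntegral.integral_const_mul]
  · intro b
    refine Filter.Eventually.of_forall fun s hs' => ?_
    rw [Set.uIoc_of_le (by linarith)] at hs'
    rw [term_eq, norm_mul, norm_mul]
    refine mul_le_mul_of_nonneg_left ?_ (norm_nonneg _)
    unfold W
    rw [norm_mul, Complex.norm_exp_ofReal_mul_I, mul_one, Complex.norm_real, Complex.norm_real,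
      Real.norm_eq_abs, Real.norm_eq_abs, abs_of_pos (Real.exp_pos _), abs_of_pos (Real.exp_pos _)]
    apply Real.exp_le_exp.2
    have h1 := maj_ge b hs'.1.le hs'.2
    have h2 : 0 < π * y := by positivity
    nlinarith [mul_le_mul_of_nonneg_left h1 h2.le]
  · exact Filter.Eventually.of_forall fun s _ => hsum
  · exact intervalIntegrable_const
  · refine Filter.Eventually.of_forall fun s _ => ?_
    have h1 := (hs F k C hb s 0 y hy).hasSum.mul_right (cexp ((-(π * s / Lg) : ℝ) * I))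
    refine hs_congr h1 fun b => ?_
    rw [term_eq]
    unfold W
    ring

lemma hasSum_Dm (hs : ThSummable) (F : ℤ × ℤ → ℂ) (hF : ∀ b, F (mulPhi (mulPhi b)) = F b)
    (hF0 : F 0 = 0) (k : ℕ) (C : ℝ)
    (hb : ∀ b, ‖F b‖ ≤ C * (1 + |(b.1 : ℝ)| + |(b.2 : ℝ)|) ^ k) {y : ℝ} (hy : 0 < y) :
    HasSum (fun b : Dm => (F b - F (mulPhi b)) * rho b *
        (KB tt (2 * π * ((nm (b : ℤ × ℤ)).natAbs : ℝ) * y) : ℂ))
      (∫ s in (0 : ℝ)..(2 * Lg), Th F s 0 y * cexp ((-(π * s / Lg) : ℝ) * I)) := by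
  have h1 := hasSum_G hs F k C hb hy
  have h2 := (Phi_inj.hasSum_iff (f := fun b => F b * G y b)
    (fun b hb' => by rw [Phi_range b hb', hF0, zero_mul])).2 h1
  refine HasSum.prod_fiberwise h2 fun b => ?_
  have hne : (b : ℤ × ℤ) ≠ 0 := ((mem_Dm_iff _).1 b.2).1
  have h3 := hasSum_orbit F hF hne hy
  rw [W_integral hne hy, ← mul_assoc] at h3
  exact h3

theorem unfold (hs : ThSummable) (h : Arith1) : Unfold := by
  intro F hF hF0 k C hb y hy
  have h1 := hasSum_Dm hs F hF hF0 k C hb hy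
  have h2 := ((Equiv.sigmaFiberEquiv (fun b : Dm => (nm (b : ℤ × ℤ)).natAbs)).hasSum_iff).2 h1
  refine HasSum.sigma h2 fun n => ?_
  have hfin : Finite (Dn n) := h.fin n
  let e : {b : Dm // (nm (b : ℤ × ℤ)).natAbs = n} ≃ Dn n :=
    { toFun := fun b => ⟨b.1.1, ⟨b.1.2, b.2⟩⟩
      invFun := fun b => ⟨⟨b.1, b.2.1⟩, b.2.2⟩
      left_inv := fun b => rfl
      right_inv := fun b => rfl }
  have : Finite {b : Dm // (nm (b : ℤ × ℤ)).natAbs = n} := Finite.of_equiv _ e.symm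
  have := Fintype.ofFinite {b : Dm // (nm (b : ℤ × ℤ)).natAbs = n}
  have := Fintype.ofFinite (Dn n)
  have h4 := hasSum_fintype (fun c : {b : Dm // (nm (b : ℤ × ℤ)).natAbs = n} =>
    ((fun b : Dm => (F b - F (mulPhi b)) * rho b *
        (KB tt (2 * π * ((nm (b : ℤ × ℤ)).natAbs : ℝ) * y) : ℂ)) ∘
      (Equiv.sigmaFiberEquiv (fun b : Dm => (nm (b : ℤ × ℤ)).natAbs))) ⟨n, c⟩)
  have h5 : ∑ᶠ b ∈ Dn n, (F b - F (mulPhi b)) * rho b * (KB tt (2 * π * n * y) : ℂ) =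
      ∑ c : {b : Dm // (nm (b : ℤ × ℤ)).natAbs = n},
        ((fun b : Dm => (F b - F (mulPhi b)) * rho b *
        (KB tt (2 * π * ((nm (b : ℤ × ℤ)).natAbs : ℝ) * y) : ℂ)) ∘
      (Equiv.sigmaFiberEquiv (fun b : Dm => (nm (b : ℤ × ℤ)).natAbs))) ⟨n, c⟩ := by
    rw [← finsum_set_coe_eq_finsum_mem, finsum_eq_sum_of_fintype]
    refine (Fintype.sum_equiv e _ _ fun c => ?_).symm
    obtain ⟨c, hc⟩ := c
    simp only [Function.comp_apply, Equiv.sigmaFiberEquiv_apply, e, Equiv.coe_fn_mk]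
    rw [hc]
  rw [h5]
  exact h4

end

end Pool.Agent.TH153.J698
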